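import Pool.Agent.H946Z.Contact.Main

set_option autoImplicit false

open scoped Manifold ContDiff

namespace Pool.Agent.Results.MP_666db5_gt.ANoTorusLeaf

open Pool.Agent.H946Z.Contact

/-- There is a closed connected smooth 4-manifold with a 2-contact structure (`n = 1`, `q = 2`)
whose contact foliation has no compact leaf. -/
theorem result :
    ∃ (M : Type) (_ : TopologicalSpace M) (_ : ChartedSpace (Fin 4 → ℝ) M),
      IsManifold 𝓘(ℝ, Fin 4 → ℝ) ∞ M ∧ CompactSpace M ∧ T2Space M ∧ SecondCountableTopology M ∧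
      ConnectedSpace M ∧
      ∃ (lam : Fin 2 → OneForm (Fin 4 → ℝ) M)
        (R ξ : (x : M) → Submodule ℝ (TangentSpace 𝓘(ℝ, Fin 4 → ℝ) x))
        (X : Fin 2 → (x : M) → TangentSpace 𝓘(ℝ, Fin 4 → ℝ) x) (F : (Fin 2 → ℝ) → M → M),
        IsQContact lam R ξ ∧ IsReeb lam R X ∧ IsActionOf X F ∧ ∀ x, ¬ IsCompact (leaf F x) := by
  obtain ⟨a, b, ha, hb⟩ := exists_ab
  exact ⟨Tor, inferInstance, inferInstance, inferInstance, inferInstance, inferInstance,
    inferInstance, inferInstance, lam a b, _, _, reeb a b, flow a b, isQContact a b, isReeb a b,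
    isActionOf a b, not_compact a b ha hb⟩

end Pool.Agent.Results.MP_666db5_gt.ANoTorusLeaf
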